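import Mathlib
import Pool.Agent.Helper634.BooleanOperations

/-!
MP_75f39d_co (helper634): Poonen's strict inequality for separating union-closed families which are
closed under one further Boolean operation.
-/

set_option autoImplicit false

namespace Pool.Agent.Results.MP_75f39d_co.BooleanOperation

open Finset
open Pool.Agent.Helper634.BooleanOperations

variable {n : ℕ} {F : Finset (Finset (Fin n))}

/-- union-closed and closed under one more operation: closed under `X ∪ (Y ∩ Z)` -/
theorem cl_up {k : ℕ} {f : Op k} (hd : ¬ ∃ S, IsDisjOn f S) (hc : ¬ IsConst f)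
    (hU : ∀ X ∈ F, ∀ Y ∈ F, X ∪ Y ∈ F) (hf : ClosedUnder F f) :
    ∀ X ∈ F, ∀ Y ∈ F, ∀ Z ∈ F, X ∪ (Y ∩ Z) ∈ F := by
  have hor : Cl F (fun x y _ => x || y) := by
    intro X hX Y hY Z hZ
    have h1 : ({i | (decide (i ∈ X) || decide (i ∈ Y)) = true} : Finset (Fin n)) = X ∪ Y := by
      ext i; simp
    rw [h1]; exact hU X hX Y hY
  have ht : Cl F (fun x y z => x || (y && z)) := by
    rcases key_of_or hor hf hc hd with h | h | h
    · have h1 := cl_comp3 h cl_y cl_x cl_x
      have h2 := cl_comp3 h cl_z cl_x cl_x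
      have h3 := cl_comp3 h (cl_comp3 hor h1 h2 cl_x) cl_x cl_x
      exact (cl_comp3 hor cl_x h3 cl_x).congr (by decide)
    · have h1 := cl_comp3 h cl_y cl_z (cl_comp3 hor cl_y cl_z cl_x)
      exact (cl_comp3 hor cl_x h1 cl_x).congr (by decide)
    · exact h
  intro X hX Y hY Z hZ
  have h1 := ht X hX Y hY Z hZ
  have h2 : ({i | (decide (i ∈ X) || (decide (i ∈ Y) && decide (i ∈ Z))) = true} :
      Finset (Fin n)) = X ∪ (Y ∩ Z) := by
    ext j; simp
  rwa [h2] at h1

/-- `W` is the intersection of a nonempty subfamily -/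
def Int (F : Finset (Finset (Fin n))) (W : Finset (Fin n)) : Prop :=
  ∃ s : Finset (Finset (Fin n)), s.Nonempty ∧ s ⊆ F ∧ s.inf id = W

theorem int_of_mem {W : Finset (Fin n)} (h : W ∈ F) : Int F W :=
  ⟨{W}, by simp, by simpa using h, by simp⟩

theorem Int.inter {V W : Finset (Fin n)} (hV : V ∈ F) (hW : Int F W) : Int F (V ∩ W) := by
  classical
  obtain ⟨s, hs, hsF, rfl⟩ := hW
  exact ⟨insert V s, Finset.insert_nonempty _ _, Finset.insert_subset hV hsF,
    by rw [Finset.inf_insert]; rfl⟩

theorem union_int (hcl : ∀ X ∈ F, ∀ Y ∈ F, ∀ Z ∈ F, X ∪ (Y ∩ Z) ∈ F) {X W : Finset (Fin n)}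
    (hX : X ∈ F) (hW : Int F W) : X ∪ W ∈ F := by
  obtain ⟨s, hs, hsF, rfl⟩ := hW
  revert X
  induction s using Finset.induction_on with
  | empty => exact absurd hs (by simp)
  | insert a s ha ih =>
    intro X hX
    have haF : a ∈ F := hsF (mem_insert_self _ _)
    rcases s.eq_empty_or_nonempty with h0 | h0
    · subst h0
      have := hcl X hX a haF a haF
      simpa using this
    · have h1 := ih h0 (fun Y hY => hsF (mem_insert_of_mem hY)) hX
      have h2 := hcl X hX _ h1 a haF
      have h3 : X ∪ (X ∪ s.inf id) ∩ a = X ∪ (insert a s).inf id := by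
        rw [Finset.inf_insert]
        ext j
        simp only [mem_union, mem_inter, id, Finset.inf_eq_inter]
        tauto
      rwa [h3] at h2

/-- minimal nonempty intersection of members -/
def Atom (F : Finset (Finset (Fin n))) (A : Finset (Fin n)) : Prop :=
  Int F A ∧ A.Nonempty ∧ ∀ B, Int F B → B.Nonempty → B ⊆ A → B = A

theorem Atom.dich {A W : Finset (Fin n)} (hA : Atom F A) (hW : W ∈ F) :
    Disjoint W A ∨ A ⊆ W := by
  by_cases h : (W ∩ A).Nonempty
  · right
    have := hA.2.2 _ (hA.1.inter hW) h Finset.inter_subset_right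
    rw [← this]; exact Finset.inter_subset_left
  · left
    rw [Finset.not_nonempty_iff_eq_empty] at h
    exact Finset.disjoint_iff_inter_eq_empty.2 h

/-- below a nonempty intersection there is an atom -/
theorem exists_atom {W : Finset (Fin n)} (hW : Int F W) (hne : W.Nonempty) :
    ∃ A, Atom F A ∧ A ⊆ W := by
  classical
  obtain ⟨A, hA, hmin⟩ := Finset.exists_min_image
    (Finset.univ.filter (fun A => Int F A ∧ A.Nonempty ∧ A ⊆ W)) Finset.card
    ⟨W, by simp [hW, hne]⟩
  simp only [mem_filter, mem_univ, true_and] at hA hmin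
  refine ⟨A, ⟨hA.1, hA.2.1, fun B hB hBn hBA => ?_⟩, hA.2.2⟩
  exact Finset.eq_of_subset_of_card_le hBA (hmin B ⟨hB, hBn, hBA.trans hA.2.2⟩)

/-- if no element lies in more than half of the members, atoms can be removed from members -/
theorem remove_atom (hcl : ∀ X ∈ F, ∀ Y ∈ F, ∀ Z ∈ F, X ∪ (Y ∩ Z) ∈ F)
    (hhalf : ∀ x ∈ F.sup id, 2 * (F.filter (fun X => x ∈ X)).card ≤ F.card)
    {A W : Finset (Fin n)} (hA : Atom F A) (hW : W ∈ F) : W \ A ∈ F := by
  classical
  rcases hA.dich hW with h | h
  · rwa [Finset.sdiff_eq_self_of_disjoint h]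
  obtain ⟨x, hx⟩ := hA.2.1
  have hxU : x ∈ F.sup id := by
    rw [Finset.mem_sup]; exact ⟨W, hW, h hx⟩
  have h1 := hhalf x hxU
  have h2 := Finset.card_filter_add_card_filter_not (s := F) (fun X => x ∈ X)
  have h3 : (F.filter (fun X => x ∈ X)).card ≤ (F.filter (fun X => x ∉ X)).card := by omega
  have hmaps : ∀ V ∈ F.filter (fun X => x ∉ X), V ∪ A ∈ F.filter (fun X => x ∈ X) := by
    intro V hV
    rw [mem_filter] at hV ⊢
    exact ⟨union_int hcl hV.1 hA.1, Finset.mem_union_right _ hx⟩
  have hdisj : ∀ V ∈ F.filter (fun X => x ∉ X), Disjoint V A := by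
    intro V hV
    rw [mem_filter] at hV
    rcases hA.dich hV.1 with h | h
    · exact h
    · exact absurd (h hx) hV.2
  have hinj : Set.InjOn (fun V => V ∪ A) (F.filter (fun X => x ∉ X) : Set (Finset (Fin n))) := by
    intro V hV V' hV' hVV
    have e1 := hdisj V hV
    have e2 := hdisj V' hV'
    have h4 : (V ∪ A) \ A = (V' ∪ A) \ A := congrArg (fun Z => Z \ A) hVV
    rwa [Finset.union_sdiff_cancel_right e1, Finset.union_sdiff_cancel_right e2] at h4
  have hsurj := Finset.surj_on_of_inj_on_of_card_le (s := F.filter (fun X => x ∉ X))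
    (t := F.filter (fun X => x ∈ X)) (fun V _ => V ∪ A) (fun V hV => hmaps V hV)
    (fun V V' hV hV' hVV => hinj hV hV' hVV) h3 W (mem_filter.2 ⟨hW, h hx⟩)
  obtain ⟨V, hV, hVW⟩ := hsurj
  have h5 : W \ A = V := by
    rw [hVW, Finset.union_sdiff_cancel_right (hdisj V hV)]
  rw [h5]
  exact (mem_filter.1 hV).1

theorem main (hne : F.Nonempty) (hcl : ∀ X ∈ F, ∀ Y ∈ F, ∀ Z ∈ F, X ∪ (Y ∩ Z) ∈ F)
    (hsep : ∀ x ∈ F.sup id, ∀ y ∈ F.sup id, x ≠ y → ∃ X ∈ F, ¬ (x ∈ X ↔ y ∈ X))
    (hhalf : ∀ x ∈ F.sup id, 2 * (F.filter (fun X => x ∈ X)).card ≤ F.card) :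
    F = (F.sup id).powerset := by
  classical
  have hU : ∀ X ∈ F, ∀ Y ∈ F, X ∪ Y ∈ F := by
    intro X hX Y hY
    have := hcl X hX Y hY Y hY
    simpa using this
  -- every singleton of the universe is an atom
  have hatom : ∀ u ∈ F.sup id, Atom F {u} := by
    intro u hu
    rw [Finset.mem_sup] at hu
    obtain ⟨W0, hW0, huW0⟩ := hu
    obtain ⟨W, hW, hmin⟩ := Finset.exists_min_image
      (Finset.univ.filter (fun W => Int F W ∧ u ∈ W)) Finset.card
      ⟨W0, by simp only [mem_filter, mem_univ, true_and]; exact ⟨int_of_mem hW0, huW0⟩⟩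
    simp only [mem_filter, mem_univ, true_and] at hW hmin
    obtain ⟨A, hA, hAW⟩ := exists_atom hW.1 ⟨u, hW.2⟩
    have huA : u ∈ A := by
      by_contra huA
      obtain ⟨⟨s, hs, hsF, hsW⟩, huW⟩ := hW
      have h1 : Int F (W \ A) := by
        refine ⟨s.image (fun X => X \ A), hs.image _, ?_, ?_⟩
        · intro Y hY
          obtain ⟨X, hX, rfl⟩ := Finset.mem_image.1 hY
          exact remove_atom hcl hhalf hA (hsF hX)
        · ext j
          rw [Finset.inf_image]
          simp only [Function.comp_def, id]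
          have h2 : j ∈ W ↔ ∀ X ∈ s, j ∈ X := by
            rw [← hsW, Finset.mem_inf]; rfl
          rw [Finset.mem_inf, Finset.mem_sdiff, h2]
          simp only [Finset.mem_sdiff]
          constructor
          · intro h
            obtain ⟨X, hX⟩ := hs
            exact ⟨fun X hX => (h X hX).1, (h X hX).2⟩
          · intro h X hX
            exact ⟨h.1 X hX, h.2⟩
      have h2 := hmin (W \ A) ⟨h1, Finset.mem_sdiff.2 ⟨huW, huA⟩⟩
      have h3 : (W \ A).card < W.card := by
        apply Finset.card_lt_card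
        refine Finset.sdiff_ssubset hAW hA.2.1
      omega
    have hA1 : A = {u} := by
      apply Finset.eq_singleton_iff_unique_mem.2
      refine ⟨huA, fun v hv => ?_⟩
      by_contra hne'
      have hin : ∀ w ∈ A, w ∈ F.sup id := by
        intro w hw
        obtain ⟨s, ⟨X, hX⟩, hsF, hsA⟩ := hA.1
        rw [Finset.mem_sup]
        refine ⟨X, hsF hX, ?_⟩
        rw [← hsA, Finset.mem_inf] at hw
        exact hw X hX
      obtain ⟨X, hX, hXv⟩ := hsep v (hin v hv) u (hin u huA) hne'
      apply hXv
      rcases hA.dich hX with h | h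
      · rw [Finset.disjoint_left] at h
        exact ⟨fun h1 => absurd hv (h h1), fun h1 => absurd huA (h h1)⟩
      · exact ⟨fun _ => h huA, fun _ => h hv⟩
    rw [← hA1]; exact hA
  -- the universe is a member
  have hsup : ∀ s : Finset (Finset (Fin n)), s.Nonempty → s ⊆ F → s.sup id ∈ F := by
    intro s hs
    induction s using Finset.induction_on with
    | empty => exact absurd hs (by simp)
    | insert a s ha ih =>
      intro hsub
      rw [Finset.sup_insert]
      have haA : a ∈ F := hsub (mem_insert_self _ _)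
      rcases s.eq_empty_or_nonempty with h0 | h0
      · subst h0; simpa using haA
      · exact hU _ haA _ (ih h0 (fun Y hY => hsub (mem_insert_of_mem hY)))
  have huniv := hsup F hne (Finset.Subset.refl _)
  have hrem : ∀ s : Finset (Fin n), s ⊆ F.sup id → F.sup id \ s ∈ F := by
    intro s
    induction s using Finset.induction_on with
    | empty => intro _; simpa using huniv
    | insert a s ha ih =>
      intro hsub
      have h1 := ih (fun x hx => hsub (mem_insert_of_mem hx))
      have h2 := remove_atom hcl hhalf (hatom a (hsub (mem_insert_self _ _))) h1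
      have h3 : (F.sup id \ s) \ {a} = F.sup id \ insert a s := by
        ext j
        simp only [mem_sdiff, mem_singleton, mem_insert, not_or]
        tauto
      rwa [h3] at h2
  ext X
  rw [Finset.mem_powerset]
  constructor
  · intro hX
    exact Finset.le_sup (f := id) hX
  · intro hX
    have h1 := hrem (F.sup id \ X) Finset.sdiff_subset
    rwa [Finset.sdiff_sdiff_eq_self hX] at h1

/-- **Poonen's strict inequality for union-closed families closed under one more Boolean operation.**
Let `F` be a nonempty union-closed family of finite sets which is also closed under a Boolean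
operation `f` (applied elementwise) that is neither a disjunction of variables nor constant.  If `F`
is separating and is not the power set of its universe, then some element of the universe lies in
strictly more than half of the members of `F`. -/
theorem result (k : ℕ) (f : Op k) (hd : ¬ ∃ S, IsDisjOn f S) (hc : ¬ IsConst f) (n : ℕ)
    (F : Finset (Finset (Fin n))) (hne : F.Nonempty) (hU : ∀ X ∈ F, ∀ Y ∈ F, X ∪ Y ∈ F)
    (hf : ClosedUnder F f)
    (hsep : ∀ x ∈ F.sup id, ∀ y ∈ F.sup id, x ≠ y → ∃ X ∈ F, ¬ (x ∈ X ↔ y ∈ X))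
    (hpow : F ≠ (F.sup id).powerset) :
    ∃ x ∈ F.sup id, F.card < 2 * (F.filter (fun X => x ∈ X)).card := by
  by_contra hcon
  push Not at hcon
  exact hpow (main hne (cl_up hd hc hU hf) hsep hcon)

end Pool.Agent.Results.MP_75f39d_co.BooleanOperation
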