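import Pool.Agent.H61UC.Final

set_option autoImplicit false

/-!
# Poonen's strengthening for the sublattices between two sublattices of a distributive lattice

Let `L` be a finite distributive lattice and `M` a sublattice of `L` (it may be empty). The family `A`
of the complements `L ∖ S` of the sublattices `S` with `M ⊆ S ⊆ L` is union-closed, and its universe is
`L ∖ M`. We show: if `A` is separating and not a power set, some element of `L ∖ M` lies in strictly
more than half of the members of `A`, that is in strictly fewer than half of the sublattices between
`M` and `L`. In general (`M ≠ L`) some element lies in at least half of the members. If `L` is not a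
chain, the strict inequality holds for every union-closed family whose inclusion order is dual to the
lattice of all sublattices of `L`.

By Birkhoff's duality the sublattices between `M` and `L` correspond to the preorders `R` between two
preorders `P ⊆ Q` on a finite set `X` (`P` a partial order), or to the topologies between two topologies
on a finite set. The elements of `L ∖ M` correspond to the subsets of `X` which are closed (downwards) for
`P` but not for `Q`, and an element lies in a sublattice if its set is closed for `R`.

Proof. Let `p` be a point such that `Q` has a pair `(v, p)` which is not in `P`, with as many elements as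
possible `Q`-below it, and then as many as possible `P`-below it. The element is the set of all points
`P`-below `p`; it is closed for `R` if no point is new below `p`. Such an `R` is mapped to a preorder with
a new point below `p`: as a rule all points which are `Q`-below `p` and not `R`-above `p` are put below
`p` and `p` is taken from below the points not forced to be above it; if `p` is equivalent for `R` to a point
`P`-below it, or is below all possible new points, `p` is identified with another point, and in the
exceptional case that all possible new points are equivalent, they are identified with the greatest
points below `p`. This map is injective. If it is surjective, there is just one possible new point, which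
can be put below `p` independently of the rest, and one concludes by induction.
-/

namespace Pool.Agent.Results.MP_75f39d_co.IntermediateSublattices

universe u v

theorem result :
    -- the complements of the sublattices between `M` and `L`
    (∀ (L : Type u) [DistribLattice L] [Fintype L] [DecidableEq L] (M : Sublattice L)
      (A : Finset (Finset L)),
      (∀ X : Finset L, X ∈ A ↔ ∃ S : Sublattice L, M ≤ S ∧ ∀ x, x ∈ X ↔ x ∉ S) →
      -- the family is union-closed with universe `L ∖ M`
      (∀ X ∈ A, ∀ Y ∈ A, X ∪ Y ∈ A) ∧ (∀ x, x ∈ A.sup id ↔ x ∉ M) ∧
      -- some element lies in at least half of the members
      (M ≠ ⊤ → ∃ x ∈ A.sup id, A.card ≤ 2 * (A.filter fun X => x ∈ X).card) ∧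
      -- in strictly more than half, if the family is separating and not a power set
      ((∀ x ∈ A.sup id, ∀ y ∈ A.sup id, x ≠ y →
          ∃ S ∈ A, (x ∈ S ∧ y ∉ S) ∨ (y ∈ S ∧ x ∉ S)) →
        A ≠ (A.sup id).powerset →
        ∃ x ∈ A.sup id, 2 * (A.filter (fun S => x ∈ S)).card > A.card)) ∧
    -- all union-closed families whose inclusion order is dual to the lattice of all sublattices
    (∀ (L : Type u) [DistribLattice L] [Finite L] (α : Type v) [DecidableEq α]
      (A : Finset (Finset α)), (∃ a b : L, ¬ a ≤ b ∧ ¬ b ≤ a) →
      (∀ X ∈ A, ∀ Y ∈ A, X ∪ Y ∈ A) → Nonempty ({X // X ∈ A} ≃o (Sublattice L)ᵒᵈ) →
      ∃ x ∈ A.sup id, 2 * (A.filter (fun S => x ∈ S)).card > A.card) := by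
  refine ⟨?_, ?_⟩
  · intro L _ _ _ M A hA
    have hA' : Pool.Agent.H61UC.IsFamily M A := hA
    exact ⟨hA'.union, fun x => hA'.mem_sup, hA'.frankl, hA'.poonen⟩
  · rintro L _ _ α _ A hL hA ⟨e⟩
    exact Pool.Agent.H61UC.dual_order hL A hA e

end Pool.Agent.Results.MP_75f39d_co.IntermediateSublattices
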