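import Pool.Agent.H683UC.Modular

set_option autoImplicit false

/-!
# Poonen's strengthening for lattices whose lower intervals have left modular atoms

Let `Λ` be a finite lattice such that for every `m ≠ ⊥` the interval `[⊥, m]` has an atom `z` which is
left modular in this interval: `(h ⊔ z) ⊓ k = h ⊔ (z ⊓ k)` for all `h ≤ k ≤ m`. Let `A` be a separating
finite union-closed family such that `A ∪ {∅}`, ordered by inclusion, is isomorphic to `Λ`. If `A` is
not a power set, some element of the universe lies in strictly more than half of the members.

Examples of such lattices `Λ` (not part of the Lean statement): the modernistic lattices of Schweig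
and Woodroofe (every interval has a left modular atom), in particular the upper semimodular lattices
(the case of Reinhold 2000), the supersolvable lattices and the duals of the subgroup lattices of
finite solvable groups; furthermore the lattices of subnormal subgroups of arbitrary finite groups
(a minimal normal subgroup normalises all subnormal subgroups by a theorem of Wielandt, so that its
subnormal subgroups of prime order, or its simple direct factors, are modular atoms), which are lower
semimodular and in general not modular.

The weak inequality for lattices with one left modular atom is due to Abdollahi, Woodroofe and Zaimi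
(2017, in the dual setting).

Proof. Let `j ≠ ⊥`, let `z` be a left modular atom of `[⊥, j]` and let `M` be maximal among the
elements of `[⊥, j]` that are not above `z`. Then `h ↦ h ⊔ z` is injective from `[⊥, M]` to the rest of
`[⊥, j]`, because `(h ⊔ z) ⊓ M = h`. So the element `i` of the universe that corresponds to `M` is in at
least half of the members. If it is in exactly half of them, all the members that contain `i`
correspond to the elements `h ⊔ z`; they contain the member of `z`, which is then `{i}` because the
family is separating. So the family consists of the members of the subfamily of `[⊥, M]` and of the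
unions of these with `{i}`. The subfamily again has no element in more than half of its members, and
induction shows that it is a power set.
-/

namespace Pool.Agent.Results.MP_75f39d_co.ModularAtoms

universe u w

/-- Let `Λ` be a lattice such that each interval `[⊥, m]`, `m ≠ ⊥`, has an atom that is left modular in
it, and let `A` be a separating finite union-closed family which is not a power set and for which
`A ∪ {∅}`, ordered by inclusion, is isomorphic to `Λ`. Then some element of the universe lies in
strictly more than half of the members of `A`. -/
theorem result (Λ : Type u) [Lattice Λ] [OrderBot Λ]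
    (hmod : ∀ m : Λ, m ≠ ⊥ → ∃ z, IsAtom z ∧ z ≤ m ∧
      ∀ h k : Λ, h ≤ k → k ≤ m → (h ⊔ z) ⊓ k = h ⊔ (z ⊓ k))
    (α : Type w) [DecidableEq α] (A : Finset (Finset α)) (hne : A.Nonempty)
    (hA : ∀ X ∈ A, ∀ Y ∈ A, X ∪ Y ∈ A)
    (hsep : ∀ x ∈ A.sup id, ∀ y ∈ A.sup id, x ≠ y →
      ∃ S ∈ A, (x ∈ S ∧ y ∉ S) ∨ (y ∈ S ∧ x ∉ S))
    (hpow : A ≠ (A.sup id).powerset)
    (hlat : Nonempty ({X : Finset α // X ∈ insert ∅ A} ≃o Λ)) :
    ∃ x ∈ A.sup id, A.card < 2 * (A.filter fun S => x ∈ S).card := by
  obtain ⟨e⟩ := hlat
  have hfin : Finite Λ := Finite.of_equiv _ e.toEquiv
  refine Pool.Agent.H683UC.poonen_of_insert_empty hne hsep hpow fun h1 h2 => ?_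
  obtain ⟨t, ht⟩ := (Set.toFinite (Set.univ : Set Λ)).bddAbove
  have ht' : ∀ k, k ≤ t := fun k => ht (Set.mem_univ k)
  refine Pool.Agent.H683UC.poonen_modular hmod t α (insert ∅ A) ?_
    ⟨e.trans (Pool.Agent.H683UC.lowerTopIso ht')⟩ h1 h2
  intro X hX Y hY
  rcases Finset.mem_insert.1 hX with rfl | hX'
  · rwa [Finset.empty_union]
  · rcases Finset.mem_insert.1 hY with rfl | hY'
    · rwa [Finset.union_empty]
    · exact Finset.mem_insert_of_mem (hA X hX' Y hY')

end Pool.Agent.Results.MP_75f39d_co.ModularAtoms
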