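import Pool.Agent.H683UC.Poonen

set_option autoImplicit false

/-!
# Poonen's strengthening for the subgroup lattices of finite solvable groups

Let `A` be a finite separating union-closed family whose inclusion order is isomorphic to the lattice
of all subgroups of a finite solvable group `G` (the union of two members corresponds to the subgroup
generated by two subgroups). If `A` is not a power set, then some element of the universe lies in
strictly more than half of the members.

Proof. Let `N ≠ 1` be a minimal normal subgroup and `M` a meet-irreducible subgroup with `M ∩ N = 1`
such that every subgroup that is not contained in `M` joins `M` to a subgroup above `N` (for a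
noncentral `N` one takes `M ≥ N_G(Q)`, where `F / C_G(N)` is a nontrivial normal `q`-subgroup of
`G / C_G(N)` and `Q` is a Sylow `q`-subgroup of `F`; the Frattini argument gives
`N_G(Q) C_G(N) = G`, and `N_G(Q) ∩ N = 1`). There is an element `i` that lies exactly in the members
`X_H`, `H ≰ M`, and `H ↦ H N` maps the subgroups of `M` injectively to the subgroups not contained in
`M`. If `i` does not lie in more than half of the members, then this map is bijective, so that every
`H ≰ M` contains `N`, the member of `N` is `{i}` (`A` is separating and no element lies in more
members than `i`) and `A` consists of the family `A₀` of the members `X_K`, `K ≤ M`, and of the sets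
`X ∪ {i}`, `X ∈ A₀`. The family `A₀` belongs to the solvable group `M`, and induction applies.
-/

namespace Pool.Agent.Results.MP_75f39d_co.SolvableSubgroupLattices

universe u w

theorem result (G : Type u) [Group G] [Finite G] (hG : Group.IsSolvable G)
    (α : Type w) [DecidableEq α] (A : Finset (Finset α))
    (hA : ∀ X ∈ A, ∀ Y ∈ A, X ∪ Y ∈ A)
    (hsep : ∀ x ∈ A.sup id, ∀ y ∈ A.sup id, x ≠ y →
      ∃ S ∈ A, (x ∈ S ∧ y ∉ S) ∨ (y ∈ S ∧ x ∉ S))
    (hpow : A ≠ (A.sup id).powerset)
    (hlat : Nonempty ({X // X ∈ A} ≃o Subgroup G)) :
    ∃ x ∈ A.sup id, A.card < 2 * (A.filter fun S => x ∈ S).card := by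
  by_contra hcon
  push Not at hcon
  exact hpow (Pool.Agent.H683UC.poonen_solvable _ G rfl hG α A hA hlat hsep hcon)

end Pool.Agent.Results.MP_75f39d_co.SolvableSubgroupLattices
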